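import Pool.Agent.Helper41.LD.Defs

/-!
# LD3, block FIN: from the classes of exponents to the sequence of one base
-/

set_option autoImplicit false

namespace Pool.Agent.Helper4.LD3

open Set MeasureTheory
open Pool.Agent.Helper41.LD (DiscLe)

theorem sInf_le_iff {τ ℓ : ℝ} (hτ : 1 < τ) (hℓ : 0 < ℓ) {Q : ℕ} (hQ : 1 ≤ Q) (e j : ℕ) :
    sInf {j : ℕ | 1 ≤ τ ^ (Q * j + e) * ℓ} ≤ j ↔ 1 ≤ τ ^ (Q * j + e) * ℓ := by
  constructor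
  · intro h
    have hne : {j : ℕ | 1 ≤ τ ^ (Q * j + e) * ℓ}.Nonempty := by
      obtain ⟨m, hm⟩ := pow_unbounded_of_one_lt (1 / ℓ) hτ
      refine ⟨m, ?_⟩
      have h1 : τ ^ m ≤ τ ^ (Q * m + e) := pow_le_pow_right₀ hτ.le (by nlinarith)
      have h2 : 1 / ℓ ≤ τ ^ (Q * m + e) := hm.le.trans h1
      have h3 := (div_le_iff₀ hℓ).1 h2
      exact h3
    have h2 : 1 ≤ τ ^ (Q * sInf {j : ℕ | 1 ≤ τ ^ (Q * j + e) * ℓ} + e) * ℓ := Nat.sInf_mem hne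
    have h3 : τ ^ (Q * sInf {j : ℕ | 1 ≤ τ ^ (Q * j + e) * ℓ} + e) ≤ τ ^ (Q * j + e) :=
      pow_le_pow_right₀ hτ.le (by gcongr)
    exact h2.trans (mul_le_mul_of_nonneg_right h3 hℓ.le)
  · exact fun h => Nat.sInf_le h

theorem sInf_le_iff' {τ ℓ : ℝ} (hτ : 1 < τ) (hℓ : 0 < ℓ) {a : ℕ} (ha : 1 ≤ a) (n : ℕ) :
    sInf {n : ℕ | 1 ≤ (τ ^ a) ^ n * ℓ} ≤ n ↔ 1 ≤ τ ^ (a * n) * ℓ := by
  have h := sInf_le_iff hτ hℓ ha 0 n
  simp only [add_zero, pow_mul] at h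
  rw [pow_mul]
  exact h

theorem card_classes {τ : ℝ} (hτ : 1 < τ) {a Q : ℕ} (ha : 1 ≤ a) (hQ : 1 ≤ Q) (haQ : a ∣ Q) {ℓ ℓ' : ℝ} (hℓ' : 0 < ℓ')
    (hℓℓ : ℓ' ≤ ℓ) (p : ℕ → Prop) [DecidablePred p] :
    ((Finset.Ico (sInf {n : ℕ | 1 ≤ (τ ^ a) ^ n * ℓ}) (sInf {n : ℕ | 1 ≤ (τ ^ a) ^ n * ℓ'})).filter p).card =
      ∑ e ∈ (Finset.range Q).filter (a ∣ ·), ((Finset.range (sInf {j : ℕ | 1 ≤ τ ^ (Q * j + e) * ℓ'} -
        sInf {j : ℕ | 1 ≤ τ ^ (Q * j + e) * ℓ})).filter fun i : ℕ =>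
          p ((Q * (sInf {j : ℕ | 1 ≤ τ ^ (Q * j + e) * ℓ} + i) + e) / a)).card := by
  have hℓ : 0 < ℓ := hℓ'.trans_le hℓℓ
  have ha0 : 0 < a := ha
  rw [Finset.card_eq_sum_card_fiberwise (f := fun n => (a * n) % Q) (t := (Finset.range Q).filter (a ∣ ·))]
  · refine Finset.sum_congr rfl fun e he => ?_
    obtain ⟨he1, he2⟩ := Finset.mem_filter.1 he
    have he1 : e < Q := Finset.mem_range.1 he1
    set n0 := sInf {j : ℕ | 1 ≤ τ ^ (Q * j + e) * ℓ} with hn0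
    set n1 := sInf {j : ℕ | 1 ≤ τ ^ (Q * j + e) * ℓ'} with hn1
    have i0 : ∀ j, n0 ≤ j ↔ 1 ≤ τ ^ (Q * j + e) * ℓ := fun j => sInf_le_iff hτ hℓ hQ e j
    have i1 : ∀ j, n1 ≤ j ↔ 1 ≤ τ ^ (Q * j + e) * ℓ' := fun j => sInf_le_iff hτ hℓ' hQ e j
    have I0 := fun n => sInf_le_iff' hτ hℓ ha n
    have I1 := fun n => sInf_le_iff' hτ hℓ' ha n
    -- the inverse map
    have key : ∀ j, a * ((Q * j + e) / a) = Q * j + e := fun j =>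
      Nat.mul_div_cancel' (dvd_add (haQ.mul_right j) he2)
    refine Finset.card_bij' (fun n _ => (a * n) / Q - n0) (fun i _ => (Q * (n0 + i) + e) / a) ?_ ?_ ?_ ?_
    · intro n hn
      simp only [Finset.mem_filter, Finset.mem_Ico] at hn
      obtain ⟨⟨⟨h1, h2⟩, h3⟩, h4⟩ := hn
      have h5 : a * n = Q * (a * n / Q) + e := by
        have := Nat.div_add_mod (a * n) Q
        rw [h4] at this
        exact this.symm
      set j := a * n / Q with hj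
      have h6 : n0 ≤ j := by rw [i0, ← h5, ← I0]; exact h1
      have h7 : j < n1 := by
        rw [← not_le, i1, ← h5, ← I1]; omega
      simp only [Finset.mem_filter, Finset.mem_range]
      refine ⟨by omega, ?_⟩
      have h8 : n0 + (j - n0) = j := by omega
      rw [h8, ← h5, Nat.mul_div_cancel_left n ha0]
      exact h3
    · intro i hi
      simp only [Finset.mem_filter, Finset.mem_range] at hi
      obtain ⟨h1, h2⟩ := hi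
      simp only [Finset.mem_filter, Finset.mem_Ico]
      refine ⟨⟨⟨?_, ?_⟩, h2⟩, ?_⟩
      · rw [I0, key, ← i0]; omega
      · rw [← not_le, I1, key, ← i1]; omega
      · rw [key, Nat.mul_add_mod, Nat.mod_eq_of_lt he1]
    · intro n hn
      simp only [Finset.mem_filter, Finset.mem_Ico] at hn
      obtain ⟨⟨⟨h1, h2⟩, h3⟩, h4⟩ := hn
      have h5 : a * n = Q * (a * n / Q) + e := by
        have := Nat.div_add_mod (a * n) Q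
        rw [h4] at this
        exact this.symm
      set j := a * n / Q with hj
      have h6 : n0 ≤ j := by rw [i0, ← h5, ← I0]; exact h1
      have h8 : n0 + (j - n0) = j := by omega
      rw [h8, ← h5, Nat.mul_div_cancel_left n ha0]
    · intro i hi
      rw [key, Nat.mul_add_div (by omega), Nat.div_eq_of_lt he1]
      omega
  · intro n hn
    have h1 : a ∣ (a * n) % Q := (Nat.dvd_mod_iff haQ).2 (dvd_mul_right a n)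
    simp only [Finset.coe_filter, Finset.mem_range, Set.mem_ofPred_eq]
    exact ⟨Nat.mod_lt _ (by omega), h1⟩

theorem class_sum {τ : ℝ} (hτ : 1 < τ) {a Q : ℕ} (ha : 1 ≤ a) (hQ : 1 ≤ Q) (haQ : a ∣ Q) (ξ : ℝ) (c : ℝ → ℝ) {ℓ ℓ' E : ℝ} (hℓ' : 0 < ℓ')
    (hℓℓ : ℓ' ≤ ℓ) (hE : 0 ≤ E)
    (h : ∀ e < Q, a ∣ e → DiscLe (fun j => τ ^ (Q * (sInf {j : ℕ | 1 ≤ τ ^ (Q * j + e) * ℓ} + j) + e) * ξ +
        c (τ ^ (Q * (sInf {j : ℕ | 1 ≤ τ ^ (Q * j + e) * ℓ} + j) + e)))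
      (sInf {j : ℕ | 1 ≤ τ ^ (Q * j + e) * ℓ'} - sInf {j : ℕ | 1 ≤ τ ^ (Q * j + e) * ℓ}) E)
    {α γ : ℝ} (h0 : 0 ≤ α) (h1 : α ≤ γ) (h2 : γ ≤ 1) :
    |(((Finset.Ico (sInf {n : ℕ | 1 ≤ (τ ^ a) ^ n * ℓ}) (sInf {n : ℕ | 1 ≤ (τ ^ a) ^ n * ℓ'})).filter fun n : ℕ =>
        α ≤ Int.fract (ξ * (τ ^ a) ^ n + c ((τ ^ a) ^ n)) ∧ Int.fract (ξ * (τ ^ a) ^ n + c ((τ ^ a) ^ n)) < γ).card : ℝ) -
      (((sInf {n : ℕ | 1 ≤ (τ ^ a) ^ n * ℓ'} : ℕ) : ℝ) - ((sInf {n : ℕ | 1 ≤ (τ ^ a) ^ n * ℓ} : ℕ) : ℝ)) * (γ - α)| ≤ Q * E := by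
  classical
  have hℓ : 0 < ℓ := hℓ'.trans_le hℓℓ
  -- the number of terms
  have hN : sInf {n : ℕ | 1 ≤ (τ ^ a) ^ n * ℓ} ≤ sInf {n : ℕ | 1 ≤ (τ ^ a) ^ n * ℓ'} := by
    rw [sInf_le_iff' hτ hℓ ha]
    have h3 := (sInf_le_iff' hτ hℓ' ha (sInf {n : ℕ | 1 ≤ (τ ^ a) ^ n * ℓ'})).1 le_rfl
    exact h3.trans (mul_le_mul_of_nonneg_left hℓℓ (by positivity))
  have hcard := card_classes hτ ha hQ haQ hℓ' hℓℓ (fun _ => True)
  simp only [Finset.filter_true, Nat.card_Ico, Finset.card_range] at hcard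
  have hcardR : ((sInf {n : ℕ | 1 ≤ (τ ^ a) ^ n * ℓ'} : ℕ) : ℝ) - ((sInf {n : ℕ | 1 ≤ (τ ^ a) ^ n * ℓ} : ℕ) : ℝ) =
      ∑ e ∈ (Finset.range Q).filter (a ∣ ·), ((sInf {j : ℕ | 1 ≤ τ ^ (Q * j + e) * ℓ'} -
        sInf {j : ℕ | 1 ≤ τ ^ (Q * j + e) * ℓ} : ℕ) : ℝ) := by
    rw [← Nat.cast_sub hN, hcard, Nat.cast_sum]
  rw [card_classes hτ ha hQ haQ hℓ' hℓℓ, hcardR, Nat.cast_sum, Finset.sum_mul, ← Finset.sum_sub_distrib]
  refine (Finset.abs_sum_le_sum_abs _ _).trans ?_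
  have hterm : ∀ e ∈ (Finset.range Q).filter (a ∣ ·),
      |((((Finset.range (sInf {j : ℕ | 1 ≤ τ ^ (Q * j + e) * ℓ'} - sInf {j : ℕ | 1 ≤ τ ^ (Q * j + e) * ℓ})).filter fun i : ℕ =>
          α ≤ Int.fract (ξ * (τ ^ a) ^ ((Q * (sInf {j : ℕ | 1 ≤ τ ^ (Q * j + e) * ℓ} + i) + e) / a) +
            c ((τ ^ a) ^ ((Q * (sInf {j : ℕ | 1 ≤ τ ^ (Q * j + e) * ℓ} + i) + e) / a))) ∧
          Int.fract (ξ * (τ ^ a) ^ ((Q * (sInf {j : ℕ | 1 ≤ τ ^ (Q * j + e) * ℓ} + i) + e) / a) +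
            c ((τ ^ a) ^ ((Q * (sInf {j : ℕ | 1 ≤ τ ^ (Q * j + e) * ℓ} + i) + e) / a))) < γ).card : ℕ) : ℝ) -
        ((sInf {j : ℕ | 1 ≤ τ ^ (Q * j + e) * ℓ'} - sInf {j : ℕ | 1 ≤ τ ^ (Q * j + e) * ℓ} : ℕ) : ℝ) * (γ - α)| ≤ E := by
    intro e he
    obtain ⟨he1, he2⟩ := Finset.mem_filter.1 he
    have he1 : e < Q := Finset.mem_range.1 he1
    have h3 := h e he1 he2 α γ h0 h1 h2
    have key : ∀ j, (τ ^ a) ^ ((Q * j + e) / a) = τ ^ (Q * j + e) := fun j => by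
      rw [← pow_mul, Nat.mul_div_cancel' (dvd_add (haQ.mul_right j) he2)]
    simp only [key]
    simp only [mul_comm ξ]
    exact h3
  refine (Finset.sum_le_sum hterm).trans ?_
  rw [Finset.sum_const, nsmul_eq_mul]
  refine mul_le_mul_of_nonneg_right ?_ hE
  have h4 : ((Finset.range Q).filter (a ∣ ·)).card ≤ Q := by
    refine (Finset.card_filter_le _ _).trans ?_
    rw [Finset.card_range]
  exact_mod_cast h4

end Pool.Agent.Helper4.LD3
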