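import Pool.Agent.Helper41.LD3.Cst
import Pool.Agent.Helper41.LD2.Main
import Pool.Agent.Helper44.LD3.LEN

/-!
# Project LD3, second half of block LEN: steps of a class inside a stage, and the mass bound
-/

set_option autoImplicit false

namespace Pool.Agent.Helper4.LD3

open Set MeasureTheory Filter Topology
open Pool.Agent.Helper41.LD (Kk Kk_mono Kk_succ Kk_ge Kk_tendsto k_lt ev_ratio)
open Pool.Agent.Helper41.LD2 (bounded_ratio)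
open Pool.Agent.Helper41.LD3

variable {κ : ℕ} {τ : ℕ → ℝ} {g Q R CF DF Cb G : ℕ}

/-- the number of steps of one class inside a stage -/
theorem tm_stage (H : Cst τ g Q R CF DF Cb G) {ℓ₀ : ℝ} (hℓ₀ : 0 < ℓ₀) (K₀ : ℕ) {s : ℕ} (hs : s < g * Q) {k₁ k : ℕ} (hk : k₁ ≤ k) :
    tm τ Q s (ll κ K₀ ℓ₀ k) - tm τ Q s (ll κ K₀ ℓ₀ k₁) ≤ 2 ^ (Kk K₀ k + 1) * (G * Kk K₀ k ^ (2 * κ + 1)) := by
  have hlt := H.lt hs
  have hidx : s / Q < g := Cst.idx_lt hs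
  have key : ∀ m : ℕ, tm τ Q s (ll κ K₀ ℓ₀ (k₁ + m)) ≤ tm τ Q s (ll κ K₀ ℓ₀ k₁) + m * (CF * Kk K₀ (k₁ + m) ^ (2 * κ + 1)) := by
    intro m
    induction m with
    | zero => simp
    | succ m ih =>
      have h1 := tm_block_le H.hQ hlt (H.hCF _ hidx) (ll_pos (κ := κ) hℓ₀ K₀ (k₁ + m)) (Kk K₀ (k₁ + m) ^ (2 * κ + 1))
      rw [← ll_succ] at h1
      have h2 : CF * Kk K₀ (k₁ + m) ^ (2 * κ + 1) ≤ CF * Kk K₀ (k₁ + m + 1) ^ (2 * κ + 1) :=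
        Nat.mul_le_mul_left _ (Nat.pow_le_pow_left (Kk_mono K₀ (Nat.le_succ _)) _)
      have h3 : m * (CF * Kk K₀ (k₁ + m) ^ (2 * κ + 1)) ≤ m * (CF * Kk K₀ (k₁ + m + 1) ^ (2 * κ + 1)) :=
        Nat.mul_le_mul_left _ h2
      show tm τ Q s (ll κ K₀ ℓ₀ (k₁ + m + 1)) ≤ tm τ Q s (ll κ K₀ ℓ₀ k₁) + (m + 1) * (CF * Kk K₀ (k₁ + m + 1) ^ (2 * κ + 1))
      rw [add_mul, one_mul]
      omega
  obtain ⟨m, rfl⟩ := Nat.exists_eq_add_of_le hk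
  have h1 := key m
  have h2 : m ≤ 2 ^ (Kk K₀ (k₁ + m) + 1) := by
    have h3 := k_lt K₀ (k₁ + m)
    have h4 : 2 ^ (Kk K₀ (k₁ + m) - K₀ + 1) ≤ 2 ^ (Kk K₀ (k₁ + m) + 1) := Nat.pow_le_pow_right (by norm_num) (by omega)
    omega
  have h5 : m * (CF * Kk K₀ (k₁ + m) ^ (2 * κ + 1)) ≤ 2 ^ (Kk K₀ (k₁ + m) + 1) * (G * Kk K₀ (k₁ + m) ^ (2 * κ + 1)) :=
    Nat.mul_le_mul h2 (Nat.mul_le_mul_right _ H.G_ge.2.1)
  omega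

/-- the bound for the dimension -/
theorem mass_bound3 (hκ : 1 ≤ κ) {ℓ₀ : ℝ} (hℓ₀ : 0 < ℓ₀) (K₀ : ℕ) {s : ℝ} (hs : 0 < s) (hs1 : s < 1) :
    ∃ C : ℝ, ∀ k, (∏ j ∈ Finset.range (k + 1), ((1 / 2 : ℝ) ^ (3 * Kk K₀ j))⁻¹) * ll κ K₀ ℓ₀ k ^ (1 - s) ≤ C := by
  obtain ⟨k₀, hk₀⟩ := eventually_atTop.1 ((Kk_tendsto K₀).eventually
    (ev_ratio (κ := 2 * κ) (θ := 2) (by norm_num) (by omega) hs hs1))
  refine bounded_ratio (k₀ := k₀) (fun k => ?_) fun k hk => ?_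
  · exact mul_nonneg (Finset.prod_nonneg fun j _ => by positivity) (Real.rpow_nonneg (ll_pos hℓ₀ K₀ k).le _)
  · have hpos := ll_pos (κ := κ) hℓ₀ K₀ k
    have hXpos : (0 : ℝ) < 2 ^ (Kk K₀ k ^ (2 * κ + 1)) := by positivity
    rw [Finset.prod_range_succ _ (k + 1), ll_succ, Real.div_rpow hpos.le hXpos.le]
    have e3 : ((1 / 2 : ℝ) ^ (3 * Kk K₀ (k + 1)))⁻¹ ≤ ((2 : ℝ) ^ (Kk K₀ k ^ (2 * κ + 1))) ^ (1 - s) := by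
      have e4 : ((1 / 2 : ℝ) ^ (3 * Kk K₀ (k + 1)))⁻¹ = 2 ^ (3 * Kk K₀ (k + 1)) := by
        rw [← inv_pow]; norm_num
      rw [e4]
      calc (2 : ℝ) ^ (3 * Kk K₀ (k + 1)) ≤ 2 ^ (3 * (Kk K₀ k + 1)) := by
            refine pow_le_pow_right₀ (by norm_num) ?_
            have := Kk_succ K₀ k
            omega
        _ ≤ ((2 : ℝ) ^ (Kk K₀ k ^ (2 * κ + 1)) / 2) ^ (1 - s) := hk₀ k hk
        _ ≤ _ := by
          refine Real.rpow_le_rpow (by positivity) ?_ (by linarith)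
          linarith
    have hP0 : 0 ≤ ∏ j ∈ Finset.range (k + 1), ((1 / 2 : ℝ) ^ (3 * Kk K₀ j))⁻¹ := Finset.prod_nonneg fun j _ => by positivity
    have hBs : 0 < ((2 : ℝ) ^ (Kk K₀ k ^ (2 * κ + 1))) ^ (1 - s) := Real.rpow_pos_of_pos hXpos _
    have hℓs : 0 ≤ ll κ K₀ ℓ₀ k ^ (1 - s) := Real.rpow_nonneg hpos.le _
    rw [mul_div_assoc', div_le_iff₀ hBs]
    calc (∏ j ∈ Finset.range (k + 1), ((1 / 2 : ℝ) ^ (3 * Kk K₀ j))⁻¹) * ((1 / 2 : ℝ) ^ (3 * Kk K₀ (k + 1)))⁻¹ * ll κ K₀ ℓ₀ k ^ (1 - s)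
        ≤ (∏ j ∈ Finset.range (k + 1), ((1 / 2 : ℝ) ^ (3 * Kk K₀ j))⁻¹) * ((2 : ℝ) ^ (Kk K₀ k ^ (2 * κ + 1))) ^ (1 - s) * ll κ K₀ ℓ₀ k ^ (1 - s) := by
          gcongr
      _ = _ := by ring

end Pool.Agent.Helper4.LD3
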